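import Mathlib

set_option autoImplicit false

/-! # A Vizing-type inequality for the isolation number: induced matchings and forests

Let `hitNum G M` be the least size of a set of vertices of `G` whose closed neighbourhood meets every edge of the
induced matching `M`. We prove `hitNum G M * γ(H) ≤ ι(G □ H)` for all finite graphs `G`, `H`, and that every
forest `G` has an induced matching `M` with `hitNum G M = ι(G)`. So `ι(G □ H) ≥ ι(G) γ(H) ≥ ι(G) ι(H)` if `G`
is a forest and `H` is any graph.

The proof of the inequality (after a theorem of Aharoni and Szabó on the domination number). Let `D` be an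
isolating set of `G □ H`. A point `d` of `D` with first coordinate on an edge `e` of `M` can only isolate edges
`e × {h}` with `h ∈ N[d.2]`, any other point `d` only edges `f × {d.2}`, `f ∈ M`. Let `U` be a smallest set
whose closed neighbourhood meets all the edges of `M`, and choose `u e ∈ U` for each `e ∈ M`. For `i ∈ U` let
`P i` be the set of the points of `D` of the first type with `u e = i`, and `M i` the set of the `h` which are not
dominated by their second coordinates (for the edges `e` with `u e = i`). Then `P i` and `M i` dominate `H`. By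
the minimality of `U` there are for each `h` at least as many points of the second type over `h` as
`i` with `h ∈ M i`. -/

namespace Pool.Agent.Results.MP_e0e9b7_co.InducedMatchings

open Finset

/-- `x` lies in the closed neighbourhood of `v`. -/
def InN {V : Type} (G : SimpleGraph V) (x v : V) : Prop := x = v ∨ G.Adj x v

/-- `A` is an isolating set of `G`: no edge has both endpoints outside `N[A]`. -/
def IsIsolating {V : Type} (G : SimpleGraph V) (A : Finset V) : Prop :=
  ∀ u v, G.Adj u v → (∃ a ∈ A, InN G a u) ∨ (∃ a ∈ A, InN G a v)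

/-- The isolation number. -/
noncomputable def isoNum {V : Type} (G : SimpleGraph V) : ℕ :=
  sInf {n : ℕ | ∃ A : Finset V, A.card = n ∧ IsIsolating G A}

/-- The domination number. -/
noncomputable def domNum {V : Type} (G : SimpleGraph V) : ℕ :=
  sInf {n : ℕ | ∃ A : Finset V, A.card = n ∧ ∀ v, ∃ a ∈ A, InN G a v}

/-- The least size of a set of vertices whose closed neighbourhood meets every edge in `M`. -/
noncomputable def hitNum {V : Type} (G : SimpleGraph V) (M : Set (V × V)) : ℕ :=
  sInf {n : ℕ | ∃ A : Finset V, A.card = n ∧ ∀ e ∈ M, ∃ a ∈ A, InN G a e.1 ∨ InN G a e.2}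

/-- `M` is an induced matching of `G`: a set of edges (ordered pairs of adjacent vertices), such that different
members have no common and no adjacent endpoints. -/
def InducedMatching {V : Type} (G : SimpleGraph V) (M : Set (V × V)) : Prop :=
  (∀ e ∈ M, G.Adj e.1 e.2) ∧ ∀ e ∈ M, ∀ f ∈ M, e ≠ f →
    ¬ InN G e.1 f.1 ∧ ¬ InN G e.1 f.2 ∧ ¬ InN G e.2 f.1 ∧ ¬ InN G e.2 f.2

lemma InN.symm {V : Type} {G : SimpleGraph V} {x v : V} (h : InN G x v) : InN G v x :=
  h.elim (fun h => Or.inl h.symm) fun h => Or.inr h.symm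

lemma domNum_le {V : Type} {G : SimpleGraph V} (A : Finset V) (h : ∀ v, ∃ a ∈ A, InN G a v) :
    domNum G ≤ A.card := Nat.sInf_le ⟨A, rfl, h⟩

lemma hitNum_le {V : Type} {G : SimpleGraph V} (M : Set (V × V)) (A : Finset V)
    (h : ∀ e ∈ M, ∃ a ∈ A, InN G a e.1 ∨ InN G a e.2) : hitNum G M ≤ A.card :=
  Nat.sInf_le ⟨A, rfl, h⟩

lemma isoNum_le {V : Type} {G : SimpleGraph V} (A : Finset V) (h : IsIsolating G A) :
    isoNum G ≤ A.card := Nat.sInf_le ⟨A, rfl, h⟩

lemma exists_iso {V : Type} [Fintype V] (G : SimpleGraph V) :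
    ∃ A : Finset V, A.card = isoNum G ∧ IsIsolating G A :=
  Nat.sInf_mem (s := {n : ℕ | ∃ A : Finset V, A.card = n ∧ IsIsolating G A})
    ⟨(univ : Finset V).card, univ, rfl, fun u _ _ => Or.inl ⟨u, mem_univ _, Or.inl rfl⟩⟩

lemma exists_hit {V : Type} [Fintype V] (G : SimpleGraph V) (M : Set (V × V)) :
    ∃ A : Finset V, A.card = hitNum G M ∧ ∀ e ∈ M, ∃ a ∈ A, InN G a e.1 ∨ InN G a e.2 :=
  Nat.sInf_mem (s := {n : ℕ | ∃ A : Finset V, A.card = n ∧
    ∀ e ∈ M, ∃ a ∈ A, InN G a e.1 ∨ InN G a e.2})
    ⟨(univ : Finset V).card, univ, rfl, fun e _ => ⟨e.1, mem_univ _, Or.inl (Or.inl rfl)⟩⟩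

lemma iso_le_dom {V : Type} [Fintype V] (G : SimpleGraph V) : isoNum G ≤ domNum G := by
  obtain ⟨A, hc, hA⟩ := Nat.sInf_mem (s := {n : ℕ | ∃ A : Finset V, A.card = n ∧
    ∀ v, ∃ a ∈ A, InN G a v})
    ⟨(univ : Finset V).card, univ, rfl, fun u => ⟨u, mem_univ _, Or.inl rfl⟩⟩
  refine (isoNum_le A fun u v _ => Or.inl (hA u)).trans hc.le

/-- The closed neighbourhoods in the product. -/
lemma inN_prod {V W : Type} (G : SimpleGraph V) (H : SimpleGraph W) (a : V × W) (x : V) (h : W)
    (hh : InN (SimpleGraph.boxProd G H) a (x, h)) :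
    (a.1 = x ∧ InN H a.2 h) ∨ (a.2 = h ∧ InN G a.1 x) := by
  rcases hh with rfl | hh
  · exact Or.inl ⟨rfl, Or.inl rfl⟩
  · rw [SimpleGraph.boxProd_adj] at hh
    rcases hh with ⟨h1, h2⟩ | ⟨h1, h2⟩
    · exact Or.inr ⟨h2, Or.inr h1⟩
    · exact Or.inl ⟨h2, Or.inr h1⟩

theorem key {V W : Type} [Fintype V] [Fintype W] (G : SimpleGraph V) (H : SimpleGraph W)
    (E : Set (V × V)) (hE : InducedMatching G E) :
    hitNum G E * domNum H ≤ isoNum (SimpleGraph.boxProd G H) := by
  classical
  obtain ⟨D, hDc, hD⟩ := exists_iso (SimpleGraph.boxProd G H)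
  rw [← hDc]
  obtain ⟨U, hUc, hU⟩ := exists_hit G E
  have hu : ∀ e : V × V, ∃ u : V, e ∈ E → u ∈ U ∧ (InN G u e.1 ∨ InN G u e.2) := by
    intro e
    by_cases he : e ∈ E
    · obtain ⟨u, h1, h2⟩ := hU e he
      exact ⟨u, fun _ => ⟨h1, h2⟩⟩
    · exact ⟨e.1, fun h => absurd h he⟩
  choose u hu using hu
  set K : V × W → V × V → W → Prop := fun d e h => e ∈ E ∧
    (InN (SimpleGraph.boxProd G H) d (e.1, h) ∨ InN (SimpleGraph.boxProd G H) d (e.2, h)) with hK
  set col : V × W → Prop := fun d => ∃ e ∈ E, d.1 = e.1 ∨ d.1 = e.2 with hcol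
  have hX : ∀ d : V × W, ∃ e0 : V × V, col d → ∀ e h, K d e h → e = e0 ∧ InN H d.2 h := by
    intro d
    by_cases hc : col d
    · obtain ⟨e0, he0, hd⟩ := hc
      refine ⟨e0, fun _ e h hK => ?_⟩
      obtain ⟨he, hK⟩ := hK
      have hne : e = e0 := by
        by_contra hne
        have h4 := hE.2 e0 he0 e he (Ne.symm hne)
        have h5 : ∀ x, x = e.1 ∨ x = e.2 → ¬ InN G d.1 x := by
          intro x hx
          rcases hd with hd | hd <;> rcases hx with rfl | rfl <;> rw [hd]
          · exact h4.1
          · exact h4.2.1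
          · exact h4.2.2.1
          · exact h4.2.2.2
        rcases hK with hK | hK
        · rcases inN_prod G H d e.1 h hK with h6 | h6
          · exact h5 e.1 (Or.inl rfl) (Or.inl h6.1)
          · exact h5 e.1 (Or.inl rfl) h6.2
        · rcases inN_prod G H d e.2 h hK with h6 | h6
          · exact h5 e.2 (Or.inr rfl) (Or.inl h6.1)
          · exact h5 e.2 (Or.inr rfl) h6.2
      refine ⟨hne, ?_⟩
      rcases hK with hK | hK
      · rcases inN_prod G H d e.1 h hK with h6 | h6
        · exact h6.2
        · exact Or.inl h6.1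
      · rcases inN_prod G H d e.2 h hK with h6 | h6
        · exact h6.2
        · exact Or.inl h6.1
    · exact ⟨(d.1, d.1), fun h => absurd h hc⟩
  choose X hX using hX
  have hY : ∀ d : V × W, ¬ col d → ∀ e h, K d e h → d.2 = h ∧ (InN G d.1 e.1 ∨ InN G d.1 e.2) := by
    intro d hc e h hK
    obtain ⟨he, hK⟩ := hK
    rcases hK with hK | hK
    · rcases inN_prod G H d e.1 h hK with h6 | h6
      · exact absurd ⟨e, he, Or.inl h6.1⟩ hc
      · exact ⟨h6.1, Or.inl h6.2⟩
    · rcases inN_prod G H d e.2 h hK with h6 | h6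
      · exact absurd ⟨e, he, Or.inr h6.1⟩ hc
      · exact ⟨h6.1, Or.inr h6.2⟩
  set P : V → Finset (V × W) := fun i => D.filter fun d => col d ∧ u (X d) = i with hP
  set M : V → Finset W := fun i => univ.filter fun y =>
    ¬ ∃ d ∈ P i, ∃ e, u e = i ∧ K d e y with hM
  set R : W → Finset (V × W) := fun y => D.filter fun d => ¬ col d ∧ d.2 = y with hR
  set S : W → Finset V := fun y => U.filter fun i => y ∈ M i with hS
  have claim1 : ∀ i, domNum H ≤ (P i).card + (M i).card := by
    intro i
    refine (domNum_le ((P i).image Prod.snd ∪ M i) ?_).trans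
      ((card_union_le _ _).trans (Nat.add_le_add_right card_image_le _))
    intro y
    by_cases h : ∃ d ∈ P i, ∃ e, u e = i ∧ K d e y
    · obtain ⟨d, hd, e, _, hKd⟩ := h
      refine ⟨d.2, mem_union_left _ (mem_image_of_mem _ hd), ?_⟩
      rw [hP] at hd
      simp only [mem_filter] at hd
      exact (hX d hd.2.1 e y hKd).2
    · refine ⟨y, mem_union_right _ ?_, Or.inl rfl⟩
      rw [hM]
      simp only [mem_filter, mem_univ, true_and]
      exact h
  have claim2 : ∀ y, (S y).card ≤ (R y).card := by
    intro y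
    have h1 : hitNum G E ≤ (R y).card + (U \ S y).card := by
      refine (hitNum_le E ((R y).image Prod.fst ∪ (U \ S y)) ?_).trans
        ((card_union_le _ _).trans (Nat.add_le_add_right card_image_le _))
      intro e he
      by_cases hux : u e ∈ S y
      · have hyM : y ∈ M (u e) := (mem_filter.1 hux).2
        rw [hM] at hyM
        simp only [mem_filter, mem_univ, true_and] at hyM
        have hadj : (SimpleGraph.boxProd G H).Adj (e.1, y) (e.2, y) := by
          rw [SimpleGraph.boxProd_adj]
          exact Or.inl ⟨hE.1 e he, rfl⟩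
        have hex : ∃ d ∈ D, K d e y := by
          rcases hD _ _ hadj with ⟨d, hd, h2⟩ | ⟨d, hd, h2⟩
          · exact ⟨d, hd, he, Or.inl h2⟩
          · exact ⟨d, hd, he, Or.inr h2⟩
        obtain ⟨d, hd, hKd⟩ := hex
        by_cases hc : col d
        · exfalso
          apply hyM
          refine ⟨d, ?_, e, rfl, hKd⟩
          rw [hP]
          simp only [mem_filter]
          refine ⟨hd, hc, ?_⟩
          rw [← (hX d hc e y hKd).1]
        · refine ⟨d.1, mem_union_left _ (mem_image_of_mem _ ?_), (hY d hc e y hKd).2⟩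
          rw [hR]
          simp only [mem_filter]
          exact ⟨hd, hc, (hY d hc e y hKd).1⟩
      · exact ⟨u e, mem_union_right _ (mem_sdiff.2 ⟨(hu e he).1, hux⟩), (hu e he).2⟩
    have h2 : (U \ S y).card + (S y).card = U.card :=
      card_sdiff_add_card_eq_card (filter_subset _ _)
    omega
  have s1 : ∑ i ∈ U, (P i).card ≤ (D.filter col).card := by
    rw [← card_biUnion]
    · apply card_le_card
      intro d hd
      rw [mem_biUnion] at hd
      obtain ⟨i, _, hi⟩ := hd
      rw [hP] at hi
      simp only [mem_filter] at hi ⊢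
      exact ⟨hi.1, hi.2.1⟩
    · intro i _ j _ hij
      rw [Function.onFun, Finset.disjoint_left]
      intro d hd hd'
      rw [hP] at hd hd'
      simp only [mem_filter] at hd hd'
      exact hij (hd.2.2.symm.trans hd'.2.2)
  have s2 : ∑ y : W, (R y).card ≤ (D.filter fun d => ¬ col d).card := by
    rw [← card_biUnion]
    · apply card_le_card
      intro d hd
      rw [mem_biUnion] at hd
      obtain ⟨i, _, hi⟩ := hd
      rw [hR] at hi
      simp only [mem_filter] at hi ⊢
      exact ⟨hi.1, hi.2.1⟩
    · intro i _ j _ hij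
      rw [Function.onFun, Finset.disjoint_left]
      intro d hd hd'
      rw [hR] at hd hd'
      simp only [mem_filter] at hd hd'
      exact hij (hd.2.2.symm.trans hd'.2.2)
  have s3 : ∑ i ∈ U, (M i).card = ∑ y : W, (S y).card := by
    have h := sum_card_bipartiteAbove_eq_sum_card_bipartiteBelow (s := U)
      (t := (univ : Finset W)) (fun i y => y ∈ M i)
    have h1 : ∀ i, (univ : Finset W).bipartiteAbove (fun i y => y ∈ M i) i = M i := by
      intro i
      ext y
      simp [bipartiteAbove]
    simp only [h1] at h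
    exact h
  have s4 : (D.filter col).card + (D.filter fun d => ¬ col d).card = D.card :=
    card_filter_add_card_filter_not _
  calc hitNum G E * domNum H = ∑ _i ∈ U, domNum H := by
        rw [sum_const, smul_eq_mul, hUc]
    _ ≤ ∑ i ∈ U, ((P i).card + (M i).card) := sum_le_sum fun i _ => claim1 i
    _ = ∑ i ∈ U, (P i).card + ∑ y : W, (S y).card := by rw [sum_add_distrib, s3]
    _ ≤ (D.filter col).card + ∑ y : W, (R y).card :=
        Nat.add_le_add s1 (sum_le_sum fun y _ => claim2 y)
    _ ≤ (D.filter col).card + (D.filter fun d => ¬ col d).card := Nat.add_le_add_left s2 _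
    _ = D.card := s4


/-- Greedy choice in a graded forest: edges with disjoint closed neighbourhoods. -/
lemma greedy {V : Type} [Fintype V] (G : SimpleGraph V) (l : V → ℕ)
    (h1 : ∀ u v, G.Adj u v → l u + 1 = l v ∨ l v + 1 = l u)
    (h2 : ∀ v u w, G.Adj u v → G.Adj w v → l u + 1 = l v → l w + 1 = l v → u = w) :
    ∀ (n : ℕ) (F : Finset (V × V)), F.card ≤ n → (∀ e ∈ F, G.Adj e.1 e.2 ∧ l e.2 + 1 = l e.1) →
      ∃ (A : Finset V) (E : Finset (V × V)), E ⊆ F ∧ A.card ≤ E.card ∧
        (∀ e ∈ F, ∃ a ∈ A, InN G a e.1 ∨ InN G a e.2) ∧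
        (∀ e ∈ E, ∀ f ∈ E, e ≠ f → ∀ a, (InN G a e.1 ∨ InN G a e.2) →
          (InN G a f.1 ∨ InN G a f.2) → False) := by
  classical
  intro n
  induction n with
  | zero =>
    intro F hF _
    have hF0 : F = ∅ := by rwa [Nat.le_zero, card_eq_zero] at hF
    subst hF0
    exact ⟨∅, ∅, by simp, by simp, by simp, by simp⟩
  | succ n ih =>
    intro F hF hFe
    rcases F.eq_empty_or_nonempty with hF0 | hne
    · subst hF0
      exact ⟨∅, ∅, by simp, by simp, by simp, by simp⟩
    obtain ⟨e, he, hmax⟩ := exists_max_image F (fun e => l e.1) hne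
    obtain ⟨hadj, hle⟩ := hFe e he
    have hg : ∃ g, (g = e.2 ∨ G.Adj g e.2) ∧ ∀ x, G.Adj x e.2 → l x + 1 = l e.2 → x = g := by
      by_cases hx : ∃ x, G.Adj x e.2 ∧ l x + 1 = l e.2
      · obtain ⟨x, hx1, hx2⟩ := hx
        exact ⟨x, Or.inr hx1, fun y hy1 hy2 => h2 e.2 y x hy1 hx1 hy2 hx2⟩
      · push Not at hx
        exact ⟨e.2, Or.inl rfl, fun x hx1 hx2 => absurd hx2 (hx x hx1)⟩
    obtain ⟨g, hg1, hg2⟩ := hg
    have hgp : InN G g e.2 := hg1
    have claim : ∀ f ∈ F, ∀ a, (InN G a e.1 ∨ InN G a e.2) → (InN G a f.1 ∨ InN G a f.2) →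
        (InN G g f.1 ∨ InN G g f.2) := by
      intro f hf a hae haf
      obtain ⟨hfadj, hfl⟩ := hFe f hf
      have hfm : l f.1 ≤ l e.1 := hmax f hf
      -- the four cases for `a`
      have hcase : a = g ∨ a = e.2 ∨ (G.Adj a e.2 ∧ l e.2 + 1 = l a) ∨
          (G.Adj a e.1 ∧ l e.1 + 1 = l a) := by
        rcases hae with (rfl | h) | (rfl | h)
        · exact Or.inr (Or.inr (Or.inl ⟨hadj, hle⟩))
        · rcases h1 _ _ h with h3 | h3
          · exact Or.inr (Or.inl (h2 e.1 a e.2 h hadj.symm h3 hle))
          · exact Or.inr (Or.inr (Or.inr ⟨h, h3⟩))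
        · exact Or.inr (Or.inl rfl)
        · rcases h1 _ _ h with h3 | h3
          · exact Or.inl (hg2 a h h3)
          · exact Or.inr (Or.inr (Or.inl ⟨h, h3⟩))
      rcases hcase with rfl | rfl | ⟨ha1, ha2⟩ | ⟨ha1, ha2⟩
      · exact haf
      · rcases haf with (h | h) | (h | h)
        · left; rw [← h]; exact hgp
        · rcases h1 _ _ h with h3 | h3
          · right
            have : f.2 = e.2 := h2 f.1 f.2 e.2 hfadj.symm h hfl h3
            rw [this]; exact hgp
          · left
            have : f.1 = g := hg2 f.1 h.symm h3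
            exact Or.inl this.symm
        · right; rw [← h]; exact hgp
        · rcases h1 _ _ h with h3 | h3
          · omega
          · right
            have : f.2 = g := hg2 f.2 h.symm h3
            exact Or.inl this.symm
      · rcases haf with (h | h) | (h | h)
        · right
          rw [h] at ha1 ha2
          have : f.2 = e.2 := h2 f.1 f.2 e.2 hfadj.symm ha1.symm hfl ha2
          rw [this]; exact hgp
        · rcases h1 _ _ h with h3 | h3
          · omega
          · left
            have : f.1 = e.2 := h2 a f.1 e.2 h.symm ha1.symm h3 ha2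
            rw [this]; exact hgp
        · rw [h] at ha2
          omega
        · rcases h1 _ _ h with h3 | h3
          · omega
          · right
            have : f.2 = e.2 := h2 a f.2 e.2 h.symm ha1.symm h3 ha2
            rw [this]; exact hgp
      · rcases haf with (h | h) | (h | h)
        · rw [h] at ha2
          omega
        · rcases h1 _ _ h with h3 | h3
          · omega
          · have h4 : f.1 = e.1 := h2 a f.1 e.1 h.symm ha1.symm h3 ha2
            right
            have : f.2 = e.2 := h2 f.1 f.2 e.2 hfadj.symm (h4 ▸ hadj.symm) hfl (h4 ▸ hle)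
            rw [this]; exact hgp
        · rw [h] at ha2
          omega
        · rcases h1 _ _ h with h3 | h3
          · omega
          · omega
    set F' := F.filter fun f => ¬ (InN G g f.1 ∨ InN G g f.2) with hF'
    have heF' : e ∉ F' := by
      intro h
      exact (mem_filter.1 h).2 (Or.inr hgp)
    have hlt : F'.card < F.card := by
      apply card_lt_card
      refine ⟨filter_subset _ _, fun h => heF' (h he)⟩
    obtain ⟨A, E, hEF, hAE, hA, hE⟩ := ih F' (by omega)
      (fun f hf => hFe f (mem_filter.1 hf).1)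
    have heE : e ∉ E := fun h => heF' (hEF h)
    refine ⟨insert g A, insert e E, ?_, ?_, ?_, ?_⟩
    · intro f hf
      rcases mem_insert.1 hf with rfl | hf
      · exact he
      · exact (mem_filter.1 (hEF hf)).1
    · rw [card_insert_of_notMem heE]
      exact (card_insert_le _ _).trans (Nat.add_le_add_right hAE 1)
    · intro f hf
      by_cases hgf : InN G g f.1 ∨ InN G g f.2
      · exact ⟨g, mem_insert_self _ _, hgf⟩
      · obtain ⟨a, ha, ha'⟩ := hA f (mem_filter.2 ⟨hf, hgf⟩)
        exact ⟨a, mem_insert_of_mem ha, ha'⟩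
    · intro f hf f' hf' hne a haf haf'
      rcases mem_insert.1 hf with h | h
      · rcases mem_insert.1 hf' with h' | h'
        · exact hne (h.trans h'.symm)
        · rw [h] at haf
          have h3 := mem_filter.1 (hEF h')
          exact h3.2 (claim f' h3.1 a haf haf')
      · rcases mem_insert.1 hf' with h' | h'
        · rw [h'] at haf'
          have h3 := mem_filter.1 (hEF h)
          exact h3.2 (claim f h3.1 a haf' haf)
        · exact hE f h f' h' hne a haf haf'

/-- A forest has an induced matching which needs as many vertices as the forest. -/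
lemma forest {V : Type} [Fintype V] (G : SimpleGraph V) (hG : G.IsAcyclic) :
    ∃ M : Set (V × V), InducedMatching G M ∧ isoNum G ≤ hitNum G M := by
  classical
  set r : V → V := fun v => (G.connectedComponentMk v).out with hr
  set l : V → ℕ := fun v => G.dist (r v) v with hl
  have hreach : ∀ v, G.Reachable (r v) v := fun v =>
    SimpleGraph.ConnectedComponent.exact (Quot.out_eq (G.connectedComponentMk v))
  have hrr : ∀ u v, G.Adj u v → r u = r v := by
    intro u v h
    have : G.connectedComponentMk u = G.connectedComponentMk v :=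
      SimpleGraph.ConnectedComponent.sound h.reachable
    rw [hr]
    simp only
    rw [this]
  have h1 : ∀ u v, G.Adj u v → l u + 1 = l v ∨ l v + 1 = l u := by
    intro u v h
    have h3 := hG.dist_eq_dist_add_one_of_adj_of_reachable (r v) h
      ((hreach v).trans h.symm.reachable)
    have h4 : l u = G.dist (r v) u := by rw [hl]; simp only; rw [hrr u v h]
    have h5 : l v = G.dist (r v) v := rfl
    rcases h3 with h3 | h3
    · right; omega
    · left; omega
  have h2 : ∀ v u w, G.Adj u v → G.Adj w v → l u + 1 = l v → l w + 1 = l v → u = w := by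
    intro v u w hu hw hlu hlw
    have hlu' : G.dist (r v) u + 1 = G.dist (r v) v := by
      have : l v = G.dist (r v) v := rfl
      have h6 : l u = G.dist (r u) u := rfl
      rw [hrr u v hu] at h6
      omega
    have hlw' : G.dist (r v) w + 1 = G.dist (r v) v := by
      have : l v = G.dist (r v) v := rfl
      have h6 : l w = G.dist (r w) w := rfl
      rw [hrr w v hw] at h6
      omega
    obtain ⟨p, hp⟩ := ((hreach v).trans hu.symm.reachable).exists_walk_length_eq_dist
    obtain ⟨q, hq⟩ := ((hreach v).trans hw.symm.reachable).exists_walk_length_eq_dist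
    have hp' : (p.concat hu).IsPath :=
      (p.concat hu).isPath_of_length_eq_dist (by rw [SimpleGraph.Walk.length_concat, hp, hlu'])
    have hq' : (q.concat hw).IsPath :=
      (q.concat hw).isPath_of_length_eq_dist (by rw [SimpleGraph.Walk.length_concat, hq, hlw'])
    have h7 := (hG.subsingleton_path (r v) v).elim ⟨_, hp'⟩ ⟨_, hq'⟩
    have h8 : p.concat hu = q.concat hw := congrArg Subtype.val h7
    have h9 := congrArg SimpleGraph.Walk.penultimate h8
    simpa using h9
  obtain ⟨A, E, hEF, hAE, hA, hE⟩ := greedy G l h1 h2 _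
    (univ.filter fun e : V × V => G.Adj e.1 e.2 ∧ l e.2 + 1 = l e.1) le_rfl
    (fun e he => (mem_filter.1 he).2)
  refine ⟨(E : Set (V × V)), ⟨fun e he => (mem_filter.1 (hEF he)).2.1, ?_⟩, ?_⟩
  · intro e he f hf hne
    have h3 := hE e he f hf hne
    have he1 := (mem_filter.1 (hEF he)).2.1
    refine ⟨fun h => ?_, fun h => ?_, fun h => ?_, fun h => ?_⟩
    · exact h3 e.1 (Or.inl (Or.inl rfl)) (Or.inl h)
    · exact h3 e.1 (Or.inl (Or.inl rfl)) (Or.inr h)
    · exact h3 e.2 (Or.inr (Or.inl rfl)) (Or.inl h)
    · exact h3 e.2 (Or.inr (Or.inl rfl)) (Or.inr h)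
  · have hiso : isoNum G ≤ A.card := by
      refine isoNum_le A fun u v huv => ?_
      rcases h1 u v huv with h | h
      · obtain ⟨a, ha, h3⟩ := hA (v, u) (mem_filter.2 ⟨mem_univ _, huv.symm, h⟩)
        rcases h3 with h3 | h3
        · exact Or.inr ⟨a, ha, h3⟩
        · exact Or.inl ⟨a, ha, h3⟩
      · obtain ⟨a, ha, h3⟩ := hA (u, v) (mem_filter.2 ⟨mem_univ _, huv, h⟩)
        rcases h3 with h3 | h3
        · exact Or.inl ⟨a, ha, h3⟩
        · exact Or.inr ⟨a, ha, h3⟩
    obtain ⟨B, hBc, hB⟩ := exists_hit G (E : Set (V × V))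
    rw [← hBc]
    refine (hiso.trans hAE).trans ?_
    have hch : ∀ e : V × V, ∃ a : V, e ∈ E → a ∈ B ∧ (InN G a e.1 ∨ InN G a e.2) := by
      intro e
      by_cases he : e ∈ E
      · obtain ⟨a, ha, ha'⟩ := hB e he
        exact ⟨a, fun _ => ⟨ha, ha'⟩⟩
      · exact ⟨e.1, fun h => absurd h he⟩
    choose c hc using hch
    refine card_le_card_of_injOn c (fun e he => (hc e he).1) ?_
    intro e he f hf hef
    by_contra hne
    refine hE e he f hf hne (c e) (hc e he).2 ?_
    have h3 := (hc f hf).2
    rw [← hef] at h3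
    exact h3

/-- **Lower bounds for the isolation number of a Cartesian product.** For all finite simple graphs `G`, `H` and every
induced matching `M` of `G`: if `m` is the least size of a set of vertices of `G` whose closed neighbourhood
meets every edge of `M`, then `ι(G □ H) ≥ m γ(H)`. If `G` is a forest, there is an induced matching with
`m ≥ ι(G)`, and so `ι(G □ H) ≥ ι(G) γ(H) ≥ ι(G) ι(H)` for every finite graph `H`. -/
theorem result {V W : Type} [Fintype V] [Fintype W] (G : SimpleGraph V) (H : SimpleGraph W) :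
    (∀ M : Set (V × V), InducedMatching G M →
      hitNum G M * domNum H ≤ isoNum (SimpleGraph.boxProd G H)) ∧
    (G.IsAcyclic → isoNum G * domNum H ≤ isoNum (SimpleGraph.boxProd G H) ∧
      isoNum G * isoNum H ≤ isoNum (SimpleGraph.boxProd G H)) := by
  refine ⟨fun M hM => key G H M hM, fun hG => ?_⟩
  obtain ⟨M, hM, hM'⟩ := forest G hG
  have h1 : isoNum G * domNum H ≤ isoNum (SimpleGraph.boxProd G H) :=
    (Nat.mul_le_mul_right _ hM').trans (key G H M hM)
  exact ⟨h1, (Nat.mul_le_mul_left _ (iso_le_dom H)).trans h1⟩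

end Pool.Agent.Results.MP_e0e9b7_co.InducedMatchings
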